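import Mathlib

set_option autoImplicit false

/-! # Torus diffeomorphisms, entropy, characteristic exponents: definitions -/

open MeasureTheory Set Filter Topology
open scoped ENNReal NNReal ContDiff

namespace Pool.Agent.TH194.BE

/-- The two-dimensional torus `(ℝ/2πℤ)²`. -/
abbrev T2 : Type := AddCircle (2 * Real.pi) × AddCircle (2 * Real.pi)

/-- The covering map from the plane onto the torus. -/
noncomputable def mk (p : ℝ × ℝ) : T2 := ((p.1 : AddCircle (2 * Real.pi)), (p.2 : AddCircle (2 * Real.pi)))

/-- A point of the plane over a given point of the torus. -/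
noncomputable def rep (x : T2) : ℝ × ℝ := (Quotient.out x.1, Quotient.out x.2)

/-- Let `F` be a lift to the plane of a diffeomorphism `f` of the torus. This is the norm of the map
`Λ T_x f^n` which is induced by `T_x f^n` on the exterior algebra of the tangent plane: the largest
of `1` (degree 0), the norm of `T_x f^n` (degree 1) and `|det T_x f^n|` (degree 2). -/
noncomputable def growth (F : ℝ × ℝ → ℝ × ℝ) (n : ℕ) (x : T2) : ℝ :=
  max 1 (max ‖fderiv ℝ (F^[n]) (rep x)‖ |(fderiv ℝ (F^[n]) (rep x)).det|)

/-- `χ₊(x) = lim (1/n) log ‖Λ T_x f^n‖`, the sum of the positive characteristic exponents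
(`lim sup` where the limit does not exist). -/
noncomputable def chi (F : ℝ × ℝ → ℝ × ℝ) (x : T2) : ℝ≥0∞ :=
  limsup (fun n : ℕ => ENNReal.ofReal (Real.log (growth F n x) / n)) atTop

/-- The word `P(x), P(f x), ..., P(f^(n-1) x)`: the atoms of the partition
`P ∨ f⁻¹ P ∨ ... ∨ f^(-n+1) P` are the sets on which this word is constant. -/
def word {k : ℕ} (P : T2 → Fin k) (f : T2 → T2) (n : ℕ) (x : T2) : Fin n → Fin k :=
  fun i => P (f^[i] x)

/-- The Shannon entropy of the partition into the fibres of `W`. -/
noncomputable def shannon (ρ : Measure T2) {ι : Type} [Fintype ι] (W : T2 → ι) : ℝ :=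
  ∑ w, Real.negMulLog (ρ (W ⁻¹' {w})).toReal

/-- The Kolmogorov-Sinai entropy of `f` with respect to the measure `ρ`: the supremum over all
finite measurable partitions `P` of the limits of `(1/n) H(P ∨ f⁻¹ P ∨ ... ∨ f^(-n+1) P)`. -/
noncomputable def entropy (ρ : Measure T2) (f : T2 → T2) : ℝ≥0∞ :=
  ⨆ (k : ℕ) (P : T2 → Fin k) (_ : Measurable P),
    limsup (fun n : ℕ => ENNReal.ofReal (shannon ρ (word P f n) / n)) atTop

end Pool.Agent.TH194.BE
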