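import Pool.Agent.TH194.BE.Map

set_option autoImplicit false

/-! # The derivative at the fixed points -/

open MeasureTheory Set Filter Topology
open scoped ENNReal NNReal ContDiff

namespace Pool.Agent.TH194.BE

open Real

/-- linear map of the plane with matrix `[[a,b],[c,d]]` -/
noncomputable def lin (a b c d : ℝ) : ℝ × ℝ →L[ℝ] ℝ × ℝ :=
  (a • ContinuousLinearMap.fst ℝ ℝ ℝ + b • ContinuousLinearMap.snd ℝ ℝ ℝ).prod
    (c • ContinuousLinearMap.fst ℝ ℝ ℝ + d • ContinuousLinearMap.snd ℝ ℝ ℝ)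

lemma lin_apply (a b c d : ℝ) (x : ℝ × ℝ) : lin a b c d x = (a * x.1 + b * x.2, c * x.1 + d * x.2) := by
  simp [lin]

lemma lin_comp (a b c d a' b' c' d' : ℝ) : (lin a b c d).comp (lin a' b' c' d') =
    lin (a * a' + b * c') (a * b' + b * d') (c * a' + d * c') (c * b' + d * d') := by
  apply ContinuousLinearMap.ext
  intro x
  rw [ContinuousLinearMap.comp_apply, lin_apply, lin_apply, lin_apply]
  ext <;> simp <;> ring

lemma lin_det (a b c d : ℝ) : (lin a b c d).det = a * d - b * c := by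
  rw [ContinuousLinearMap.det, ← LinearMap.det_toMatrix (Module.Basis.finTwoProd ℝ), Matrix.det_fin_two]
  simp [LinearMap.toMatrix_apply, lin_apply]

lemma hasFDerivAt_f1 (p : ℝ × ℝ) : HasFDerivAt f1
    (lin (1 + 1 / 8 * sin p.2 * sin p.1) (-(1 / 8) * cos p.2 * cos p.1) 0 1) p := by
  have h1 : HasFDerivAt (fun q : ℝ × ℝ => q.1) (ContinuousLinearMap.fst ℝ ℝ ℝ) p := hasFDerivAt_fst
  have h2 : HasFDerivAt (fun q : ℝ × ℝ => q.2) (ContinuousLinearMap.snd ℝ ℝ ℝ) p := hasFDerivAt_snd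
  have h3 := (h1.add (((h2.sin.const_mul (-(1 / 8))).mul h1.cos))).prodMk h2
  have e : f1 = fun q : ℝ × ℝ => (q.1 + -(1 / 8) * sin q.2 * cos q.1, q.2) := by
    funext q; exact f1_eq q
  rw [e]
  refine h3.congr_fderiv ?_
  apply ContinuousLinearMap.ext
  intro x
  rw [lin_apply]
  ext
  · simp; ring
  · simp

lemma hasFDerivAt_f2 (p : ℝ × ℝ) : HasFDerivAt f2
    (lin 1 0 (1 / 8 * cos p.1 * cos p.2) (1 - 1 / 8 * sin p.1 * sin p.2)) p := by
  have h1 : HasFDerivAt (fun q : ℝ × ℝ => q.1) (ContinuousLinearMap.fst ℝ ℝ ℝ) p := hasFDerivAt_fst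
  have h2 : HasFDerivAt (fun q : ℝ × ℝ => q.2) (ContinuousLinearMap.snd ℝ ℝ ℝ) p := hasFDerivAt_snd
  have h3 := h1.prodMk (h2.add (((h1.sin.const_mul (1 / 8)).mul h2.cos)))
  have e : f2 = fun q : ℝ × ℝ => (q.1, q.2 + (1 / 8) * sin q.1 * cos q.2) := by
    funext q; exact f2_eq q
  rw [e]
  refine h3.congr_fderiv ?_
  apply ContinuousLinearMap.ext
  intro x
  rw [lin_apply]
  ext
  · simp
  · simp; ring

lemma hasFDerivAt_f3 (p : ℝ × ℝ) : HasFDerivAt f3
    (lin (1 + 1 / 16 * (cos p.1 ^ 2 - sin p.1 ^ 2)) 0 0 (1 + 1 / 16 * (cos p.2 ^ 2 - sin p.2 ^ 2))) p := by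
  have h1 : HasFDerivAt (fun q : ℝ × ℝ => q.1) (ContinuousLinearMap.fst ℝ ℝ ℝ) p := hasFDerivAt_fst
  have h2 : HasFDerivAt (fun q : ℝ × ℝ => q.2) (ContinuousLinearMap.snd ℝ ℝ ℝ) p := hasFDerivAt_snd
  have h3 := (h1.add (((h1.sin.const_mul (1 / 16)).mul h1.cos))).prodMk
    (h2.add (((h2.sin.const_mul (1 / 16)).mul h2.cos)))
  have e : f3 = fun q : ℝ × ℝ => (q.1 + (1 / 16) * sin q.1 * cos q.1, q.2 + (1 / 16) * sin q.2 * cos q.2) := by
    funext q; exact f3_eq q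
  rw [e]
  refine h3.congr_fderiv ?_
  apply ContinuousLinearMap.ext
  intro x
  rw [lin_apply]
  ext
  · simp; ring
  · simp; ring

/-- the derivative of `F` at a fixed point where all three steps fix the point -/
lemma hasFDerivAt_F (p : ℝ × ℝ) (h1 : f1 p = p) (h2 : f2 p = p) : HasFDerivAt F
    ((lin (1 + 1 / 16 * (cos p.1 ^ 2 - sin p.1 ^ 2)) 0 0 (1 + 1 / 16 * (cos p.2 ^ 2 - sin p.2 ^ 2))).comp
      ((lin 1 0 (1 / 8 * cos p.1 * cos p.2) (1 - 1 / 8 * sin p.1 * sin p.2)).comp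
        (lin (1 + 1 / 8 * sin p.2 * sin p.1) (-(1 / 8) * cos p.2 * cos p.1) 0 1))) p := by
  have a1 := hasFDerivAt_f1 p
  have a2 := hasFDerivAt_f2 p
  have a3 := hasFDerivAt_f3 p
  have b2 : HasFDerivAt f2 (lin 1 0 (1 / 8 * cos p.1 * cos p.2) (1 - 1 / 8 * sin p.1 * sin p.2)) (f1 p) := by
    rw [h1]; exact a2
  have c1 := b2.comp p a1
  have b3 : HasFDerivAt f3 (lin (1 + 1 / 16 * (cos p.1 ^ 2 - sin p.1 ^ 2)) 0 0
      (1 + 1 / 16 * (cos p.2 ^ 2 - sin p.2 ^ 2))) ((f2 ∘ f1) p) := by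
    rw [Function.comp_apply, h1, h2]; exact a3
  exact b3.comp p c1

lemma corner_deriv (p : ℝ × ℝ) (h : cos p.1 = 0) (h' : cos p.2 = 0) :
    HasFDerivAt F (lin (15 / 16 * (1 + 1 / 8 * (sin p.1 * sin p.2))) 0 0
      (15 / 16 * (1 - 1 / 8 * (sin p.1 * sin p.2)))) p := by
  have h1 : f1 p = p := by rw [f1_eq]; ext <;> simp [h]
  have h2 : f2 p = p := by rw [f2_eq]; ext <;> simp [h']
  have h3 := hasFDerivAt_F p h1 h2
  rw [lin_comp, lin_comp] at h3
  have s1 : sin p.1 ^ 2 = 1 := by have := Real.sin_sq_add_cos_sq p.1; rw [h] at this; linarith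
  have s2 : sin p.2 ^ 2 = 1 := by have := Real.sin_sq_add_cos_sq p.2; rw [h'] at this; linarith
  rw [h, h', s1, s2] at h3
  refine h3.congr_fderiv ?_
  congr 1 <;> ring

lemma center_deriv (p : ℝ × ℝ) (h : sin p.1 = 0) (h' : sin p.2 = 0) :
    ∃ L : ℝ × ℝ →L[ℝ] ℝ × ℝ, HasFDerivAt F L p ∧ L.det = (17 / 16) ^ 2 := by
  have h1 : f1 p = p := by rw [f1_eq]; ext <;> simp [h']
  have h2 : f2 p = p := by rw [f2_eq]; ext <;> simp [h]
  have h3 := hasFDerivAt_F p h1 h2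
  rw [lin_comp, lin_comp] at h3
  have s1 : cos p.1 ^ 2 = 1 := by have := Real.sin_sq_add_cos_sq p.1; rw [h] at this; linarith
  have s2 : cos p.2 ^ 2 = 1 := by have := Real.sin_sq_add_cos_sq p.2; rw [h'] at this; linarith
  refine ⟨_, h3, ?_⟩
  rw [lin_det, h, h', s1, s2]
  ring

lemma iterate_fderiv (p : ℝ × ℝ) (L : ℝ × ℝ →L[ℝ] ℝ × ℝ) (hL : HasFDerivAt F L p) (hp : F p = p)
    (n : ℕ) : fderiv ℝ (F^[n]) p = L ^ n :=
  (hL.iterate hp n).fderiv

lemma det_pow' (L : ℝ × ℝ →L[ℝ] ℝ × ℝ) (n : ℕ) : (L ^ n).det = L.det ^ n := by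
  have e : ((L ^ n : ℝ × ℝ →L[ℝ] ℝ × ℝ) : ℝ × ℝ →ₗ[ℝ] ℝ × ℝ) = (L : ℝ × ℝ →ₗ[ℝ] ℝ × ℝ) ^ n := by
    induction n with
    | zero => rfl
    | succ n ih => rw [pow_succ, pow_succ, ← ih]; rfl
  rw [ContinuousLinearMap.det, e, map_pow]

/-- lower bound for the growth at the corners -/
lemma growth_corner (x : T2) (h : cos (rep x).1 = 0) (h' : cos (rep x).2 = 0) (n : ℕ) :
    (135 / 128 : ℝ) ^ n ≤ growth F n x := by
  have hL := corner_deriv (rep x) h h'
  have hf := iterate_fderiv (rep x) _ hL (F_corner _ h h') n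
  unfold growth
  rw [hf]
  refine le_trans ?_ ((le_max_left _ _).trans (le_max_right _ _))
  have s1 : sin (rep x).1 ^ 2 = 1 := by
    have := Real.sin_sq_add_cos_sq (rep x).1; rw [h] at this; linarith
  have s2 : sin (rep x).2 ^ 2 = 1 := by
    have := Real.sin_sq_add_cos_sq (rep x).2; rw [h'] at this; linarith
  have s3 : (sin (rep x).1 * sin (rep x).2 - 1) * (sin (rep x).1 * sin (rep x).2 + 1) = 0 := by
    have : (sin (rep x).1 * sin (rep x).2 - 1) * (sin (rep x).1 * sin (rep x).2 + 1) =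
      sin (rep x).1 ^ 2 * sin (rep x).2 ^ 2 - 1 := by ring
    rw [this, s1, s2]; norm_num
  have key : ∀ (n : ℕ) (a d : ℝ) (e : ℝ × ℝ) (lam : ℝ), ‖e‖ = 1 → lin a 0 0 d e = lam • e → 0 ≤ lam →
      lam ^ n ≤ ‖(lin a 0 0 d) ^ n‖ := by
    intro n a d e lam he hlam h0
    have h1 : ((lin a 0 0 d) ^ n) e = lam ^ n • e := by
      induction n with
      | zero => simp
      | succ n ih =>
        rw [pow_succ', mul_apply_eq_comp, ih, map_smul, hlam, smul_smul, pow_succ]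
    have h2 := ((lin a 0 0 d) ^ n).le_opNorm e
    rw [h1, he, mul_one, norm_smul, he, mul_one, Real.norm_eq_abs, abs_of_nonneg (by positivity)] at h2
    exact h2
  rcases mul_eq_zero.1 s3 with h4 | h4
  · have h5 : sin (rep x).1 * sin (rep x).2 = 1 := by linarith
    rw [h5]
    apply key n _ _ ((1 : ℝ), (0 : ℝ)) (135 / 128)
    · simp [Prod.norm_def]
    · rw [lin_apply]; ext <;> simp; norm_num
    · norm_num
  · have h5 : sin (rep x).1 * sin (rep x).2 = -1 := by linarith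
    rw [h5]
    apply key n _ _ ((0 : ℝ), (1 : ℝ)) (135 / 128)
    · simp [Prod.norm_def]
    · rw [lin_apply]; ext <;> simp; norm_num
    · norm_num

/-- lower bound for the growth at the centres -/
lemma growth_center (x : T2) (h : sin (rep x).1 = 0) (h' : sin (rep x).2 = 0) (n : ℕ) :
    (135 / 128 : ℝ) ^ n ≤ growth F n x := by
  obtain ⟨L, hL, hd⟩ := center_deriv (rep x) h h'
  have hf := iterate_fderiv (rep x) _ hL (F_center _ h h') n
  unfold growth
  rw [hf]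
  refine le_trans ?_ ((le_max_right _ _).trans (le_max_right _ _))
  rw [det_pow', hd, abs_of_nonneg (by positivity)]
  apply pow_le_pow_left₀ <;> norm_num

/-- growth gives a lower bound for the exponents -/
lemma chi_ge (x : T2) (h : ∀ n, (135 / 128 : ℝ) ^ n ≤ growth F n x) :
    ENNReal.ofReal (Real.log (135 / 128)) ≤ chi F x := by
  unfold chi
  have h1 : ∀ᶠ n : ℕ in atTop, ENNReal.ofReal (Real.log (135 / 128)) ≤
      ENNReal.ofReal (Real.log (growth F n x) / n) := by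
    filter_upwards [eventually_gt_atTop 0] with n hn
    apply ENNReal.ofReal_le_ofReal
    rw [le_div_iff₀ (by exact_mod_cast hn), mul_comm, ← Real.log_pow]
    exact Real.log_le_log (by positivity) (h n)
  calc ENNReal.ofReal (Real.log (135 / 128)) = limsup (fun _ : ℕ => ENNReal.ofReal (Real.log (135 / 128))) atTop := by
        rw [limsup_const]
    _ ≤ limsup (fun n : ℕ => ENNReal.ofReal (Real.log (growth F n x) / n)) atTop :=
        limsup_le_limsup h1

end Pool.Agent.TH194.BE
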