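import Pool.Agent.TH194.BE.Defs

set_option autoImplicit false

/-! # Elementary inequalities -/

open MeasureTheory Set Filter Topology
open scoped ENNReal NNReal ContDiff

namespace Pool.Agent.TH194.BE

open Real

lemma cos_le_quad {h : ℝ} (hh : |h| ≤ 1) : cos h ≤ 1 - h ^ 2 / 4 := by
  have h1 := (abs_le.1 (Real.cos_bound hh)).2
  have h2 : |h| ^ 4 = (h ^ 2) ^ 2 := by rw [← sq_abs h]; ring
  have h3 : h ^ 2 ≤ 1 := by rw [← sq_abs]; nlinarith [abs_nonneg h]
  rw [h2] at h1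
  nlinarith [sq_nonneg h]

/-- `h (h - sin h) ≤ h^4/4` in the form needed -/
lemma sin_ge {h : ℝ} (hh : |h| ≤ 1) : h ^ 2 - h ^ 4 / 4 ≤ h * sin h := by
  rcases lt_trichotomy h 0 with h0 | h0 | h0
  · have h1 : 0 < -h := by linarith
    have h2 : -h ≤ 1 := by rw [abs_of_neg h0] at hh; exact hh
    have h3 := Real.sin_gt_sub_cube h1
    rw [Real.sin_neg] at h3
    nlinarith
  · subst h0; simp
  · have h2 : h ≤ 1 := by rw [abs_of_pos h0] at hh; exact hh
    have h3 := Real.sin_gt_sub_cube h0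
    nlinarith

/-- the step `u ↦ u + κ cos u` -/
lemma step_cos (u κ : ℝ) (hκ : |κ| ≤ 1 / 8) :
    ∃ t : ℝ, 0 < t ∧ t ≤ exp (-(κ * sin u)) ∧ cos (u + κ * cos u) = cos u * t := by
  rcases eq_or_ne (κ * cos u) 0 with h0 | h0
  · rcases mul_eq_zero.1 h0 with h1 | h1
    · subst h1
      exact ⟨1, one_pos, by simp, by simp⟩
    · exact ⟨exp (-(κ * sin u)), exp_pos _, le_rfl, by rw [h1, mul_zero, add_zero, h1, zero_mul]⟩
  · have hc : cos u ≠ 0 := right_ne_zero_of_mul h0
    have hk : κ ≠ 0 := left_ne_zero_of_mul h0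
    obtain ⟨h, hh⟩ : ∃ h, h = κ * cos u := ⟨_, rfl⟩
    have hne : h ≠ 0 := by rw [hh]; exact h0
    have habs : |h| ≤ 1 / 8 := by
      rw [hh, abs_mul]
      have := abs_cos_le_one u
      calc |κ| * |cos u| ≤ 1 / 8 * 1 := by gcongr
        _ = 1 / 8 := by norm_num
    have hs : sin h = h * (sin h / h) := by field_simp
    obtain ⟨σ, hσ⟩ : ∃ σ, σ = sin h / h := ⟨_, rfl⟩
    have hσ1 : 1 - h ^ 2 / 4 ≤ σ := by
      rw [hσ]
      have h1 := sin_ge (h := h) (by linarith)
      have h2 : 0 < h ^ 2 := by positivity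
      have h3 : sin h / h = (h * sin h) / h ^ 2 := by field_simp
      rw [h3, le_div_iff₀ h2]
      nlinarith
    have hσ2 : σ ≤ 1 := by
      rw [hσ]
      have h1 : |sin h| ≤ |h| := Real.abs_sin_le_abs
      have h2 : sin h / h ≤ |sin h / h| := le_abs_self _
      rw [abs_div] at h2
      have h3 : |sin h| / |h| ≤ 1 := by
        rw [div_le_one (abs_pos.2 hne)]; exact h1
      linarith
    have hh2 : h ^ 2 ≤ 1 / 64 := by
      rw [← sq_abs]; nlinarith [abs_nonneg h]
    have hks : |κ * sin u| ≤ 1 / 8 := by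
      rw [abs_mul]
      have := abs_sin_le_one u
      calc |κ| * |sin u| ≤ 1 / 8 * 1 := by gcongr
        _ = 1 / 8 := by norm_num
    obtain ⟨x, hx⟩ : ∃ x, x = κ * sin u := ⟨_, rfl⟩
    rw [← hx] at hks
    have hx' := abs_le.1 hks
    have hcosl := Real.one_sub_sq_div_two_le_cos (x := h)
    have hcosu := cos_le_quad (h := h) (by linarith)
    refine ⟨cos h - x * σ, ?_, ?_, ?_⟩
    · have : x * σ ≤ 1 / 8 := by
        have h1 : |x * σ| ≤ 1 / 8 := by
          rw [abs_mul]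
          have h2 : |σ| ≤ 1 := abs_le.2 ⟨by linarith, hσ2⟩
          calc |x| * |σ| ≤ 1 / 8 * 1 := by gcongr
            _ = 1 / 8 := by norm_num
        exact (le_abs_self _).trans h1
      linarith
    · rw [← hx]
      have h1 := Real.add_one_le_exp (-x)
      have h2 : x * (1 - σ) ≤ 1 / 8 * (h ^ 2 / 4) := by
        have h3 : 0 ≤ 1 - σ := by linarith
        calc x * (1 - σ) ≤ 1 / 8 * (1 - σ) := by gcongr; exact hx'.2
          _ ≤ 1 / 8 * (h ^ 2 / 4) := by gcongr; linarith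
      nlinarith [sq_nonneg h]
    · rw [← hh, Real.cos_add, hx]
      rw [hs, ← hσ, hh]
      ring

/-- the step `v ↦ v + κ cos v` raises the sine if `κ > 0` -/
lemma step_sin_ge (v κ : ℝ) (hκ : |κ| ≤ 1 / 8) :
    sin v + κ * cos v ^ 2 - κ ^ 2 * cos v ^ 2 ≤ sin (v + κ * cos v) := by
  obtain ⟨c, hc⟩ : ∃ c, c = cos v := ⟨_, rfl⟩
  obtain ⟨h, hh⟩ : ∃ h, h = κ * c := ⟨_, rfl⟩
  have hc1 : |c| ≤ 1 := by rw [hc]; exact abs_cos_le_one v
  have habs : |h| ≤ 1 / 8 := by
    rw [hh, abs_mul]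
    calc |κ| * |c| ≤ 1 / 8 * 1 := by gcongr
      _ = 1 / 8 := by norm_num
  have hcosl := Real.one_sub_sq_div_two_le_cos (x := h)
  have hs1 := Real.abs_sin_le_one v
  have hs := abs_le.1 hs1
  have hcos1 := Real.cos_le_one h
  rw [← hc, ← hh, Real.sin_add, ← hc]
  -- sin v (cos h - 1) ≥ - h^2/2
  have e1 : -(h ^ 2 / 2) ≤ sin v * (cos h - 1) := by nlinarith
  -- c sin h ≥ κ c^2 - |κ| c^2 h^2/4
  have e2 : κ * c ^ 2 - κ ^ 2 * c ^ 2 / 2 ≤ c * sin h := by
    rcases eq_or_ne κ 0 with h0 | h0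
    · subst h0
      have : h = 0 := by rw [hh]; ring
      rw [this]; simp
    · have h2 : |c * sin h - c * h| ≤ κ ^ 2 * c ^ 2 / 2 := by
        have h3 : |sin h - h| ≤ h ^ 2 / 4 := by
          rcases le_total 0 h with h0' | h0'
          · have a1 := Real.sin_le h0'
            rw [abs_of_nonneg h0'] at habs
            rcases h0'.eq_or_lt with h00 | h00
            · rw [← h00]; simp
            · have a2 := Real.sin_gt_sub_cube h00
              rw [abs_le]; constructor <;> nlinarith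
          · have h0'' : 0 ≤ -h := by linarith
            have a1 := Real.sin_le h0''
            rw [Real.sin_neg] at a1
            rw [abs_of_nonpos h0'] at habs
            rcases h0''.eq_or_lt with h00 | h00
            · have : h = 0 := by linarith
              rw [this]; simp
            · have a2 := Real.sin_gt_sub_cube h00
              rw [Real.sin_neg] at a2
              rw [abs_le]; constructor <;> nlinarith
        rw [← mul_sub, abs_mul]
        calc |c| * |sin h - h| ≤ 1 * (h ^ 2 / 4) := by gcongr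
          _ ≤ κ ^ 2 * c ^ 2 / 2 := by rw [hh]; nlinarith [sq_nonneg (κ * c)]
      have h4 := (abs_le.1 h2).1
      have h5 : c * h = κ * c ^ 2 := by rw [hh]; ring
      linarith
  have e3 : h ^ 2 = κ ^ 2 * c ^ 2 := by rw [hh]; ring
  nlinarith

/-- one-dimensional dynamics on the edges of the squares -/
lemma oneD (v : ℝ) :
    sin v + cos v ^ 2 / 100 ≤ sin ((v + 1 / 8 * cos v) +
      (1 / 16 * sin (v + 1 / 8 * cos v)) * cos (v + 1 / 8 * cos v)) := by
  obtain ⟨w, hw⟩ : ∃ w, w = v + 1 / 8 * cos v := ⟨_, rfl⟩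
  rw [← hw]
  have h1 := step_sin_ge v (1 / 8) (by rw [abs_of_pos] <;> norm_num)
  rw [← hw] at h1
  have hsw := Real.abs_sin_le_one w
  have hk : |1 / 16 * sin w| ≤ 1 / 16 := by
    rw [abs_mul, abs_of_pos (by norm_num : (0 : ℝ) < 1 / 16)]
    linarith
  have h2 := step_sin_ge w (1 / 16 * sin w) (by linarith)
  obtain ⟨t, ht0, ht1, ht2⟩ := step_cos v (1 / 8) (by rw [abs_of_pos] <;> norm_num)
  rw [← hw] at ht2
  have ht3 : t ≤ 8 / 7 := by
    refine ht1.trans ?_
    have h3 : -(1 / 8 * sin v) ≤ 1 / 8 := by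
      have := (abs_le.1 (Real.abs_sin_le_one v)).1
      linarith
    have h4 : exp (-(1 / 8 * sin v)) ≤ exp (1 / 8) := Real.exp_le_exp.2 h3
    refine h4.trans ?_
    have h5 := Real.add_one_le_exp (-(1 / 8) : ℝ)
    rw [Real.exp_neg] at h5
    have h6 : 0 < exp (1 / 8) := Real.exp_pos _
    have h7 : (7 : ℝ) / 8 * exp (1 / 8) ≤ 1 := by
      have h8 : (exp (1 / 8))⁻¹ * exp (1 / 8) = 1 := inv_mul_cancel₀ h6.ne'
      nlinarith
    linarith
  have hcw : cos w ^ 2 ≤ 64 / 49 * cos v ^ 2 := by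
    rw [ht2, mul_pow]
    have : t ^ 2 ≤ 64 / 49 := by nlinarith
    nlinarith [sq_nonneg (cos v)]
  have hk' := abs_le.1 hk
  have hkk : (1 / 16 * sin w) ^ 2 ≤ 1 / 256 := by
    rw [← sq_abs]; nlinarith [abs_nonneg (1 / 16 * sin w)]
  have h9 : -(1 / 16) * cos w ^ 2 - 1 / 256 * cos w ^ 2 ≤
      (1 / 16 * sin w) * cos w ^ 2 - (1 / 16 * sin w) ^ 2 * cos w ^ 2 := by
    nlinarith [sq_nonneg (cos w)]
  nlinarith [sq_nonneg (cos w), sq_nonneg (cos v)]

end Pool.Agent.TH194.BE
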