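import Pool.Agent.TH194.BE.Defs

set_option autoImplicit false

/-! # Small perturbations of the identity are diffeomorphisms -/

open MeasureTheory Set Filter Topology
open scoped ENNReal NNReal ContDiff

namespace Pool.Agent.TH194.BE

theorem smooth_inverse {E : Type} [NormedAddCommGroup E] [NormedSpace ℝ E] [CompleteSpace E]
    [Nontrivial E]
    (g : E → E) (n : WithTop ℕ∞) (hn : n ≠ 0) (hg : ContDiff ℝ n g) (c : ℝ≥0) (hc : c < 1)
    (hb : LipschitzWith c g) :
    ∃ G : E → E, ContDiff ℝ n G ∧ (∀ x, G (x + g x) = x) ∧ ∀ y, G y + g (G y) = y := by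
  have hd : Differentiable ℝ g := hg.differentiable hn
  have ha : ApproximatesLinearOn (fun x => x + g x)
      ((ContinuousLinearEquiv.refl ℝ E : E ≃L[ℝ] E) : E →L[ℝ] E) univ c := by
    intro x _ y _
    have := hb.norm_sub_le x y
    have e : (x + g x) - (y + g y) -
        ((ContinuousLinearEquiv.refl ℝ E : E ≃L[ℝ] E) : E →L[ℝ] E) (x - y) = g x - g y := by
      simp only [ContinuousLinearEquiv.coe_coe, ContinuousLinearEquiv.refl_apply]
      abel
    rw [e]
    exact this
  have hc' : c < ‖((ContinuousLinearEquiv.refl ℝ E : E ≃L[ℝ] E).symm : E →L[ℝ] E)‖₊⁻¹ := by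
    have : ‖((ContinuousLinearEquiv.refl ℝ E : E ≃L[ℝ] E).symm : E →L[ℝ] E)‖₊ = 1 := by
      simp
    rw [this, inv_one]
    exact hc
  let e : E ≃ₜ E := ha.toHomeomorph (fun x => x + g x) (Or.inr hc')
  have he : ∀ x, e x = x + g x := fun x => rfl
  have hu : ∀ x, IsUnit ((1 : E →L[ℝ] E) - (-(fderiv ℝ g x))) := by
    intro x
    apply isUnit_one_sub_of_norm_lt_one
    rw [norm_neg]
    refine lt_of_le_of_lt (norm_fderiv_le_of_lipschitz ℝ hb) ?_
    exact_mod_cast hc
  choose U hU using hu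
  let L : E → E ≃L[ℝ] E := fun x => ContinuousLinearEquiv.unitsEquiv ℝ E (U x)
  have hL : ∀ x, HasFDerivAt e (L x : E →L[ℝ] E) x := by
    intro x
    have h1 : HasFDerivAt (fun x => x + g x) ((ContinuousLinearMap.id ℝ E) + fderiv ℝ g x) x :=
      (hasFDerivAt_id x).add (hd x).hasFDerivAt
    have h2 : (L x : E →L[ℝ] E) = (ContinuousLinearMap.id ℝ E) + fderiv ℝ g x := by
      have h3 : (L x : E →L[ℝ] E) = (U x : E →L[ℝ] E) := rfl
      rw [h3, hU x, sub_neg_eq_add]
      rfl
    rw [h2]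
    exact h1
  have hsm : ContDiff ℝ n (e : E → E) := contDiff_id.add hg
  refine ⟨e.symm, e.contDiff_symm hL hsm, fun x => ?_, fun y => ?_⟩
  · rw [← he]; exact e.symm_apply_apply x
  · rw [← he]; exact e.apply_symm_apply y

end Pool.Agent.TH194.BE
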