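import Pool.Agent.TH194.BE.Ineq
import Pool.Agent.TH194.BE.Inv

set_option autoImplicit false

/-! # The map of the plane -/

open MeasureTheory Set Filter Topology
open scoped ENNReal NNReal ContDiff

namespace Pool.Agent.TH194.BE

open Real

/-- first step, perturbation part -/
noncomputable def g1 (p : ℝ × ℝ) : ℝ × ℝ := (-(1 / 8) * sin p.2 * cos p.1, 0)
/-- second step, perturbation part -/
noncomputable def g2 (p : ℝ × ℝ) : ℝ × ℝ := (0, 1 / 8 * sin p.1 * cos p.2)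
/-- third step, perturbation part -/
noncomputable def g3 (p : ℝ × ℝ) : ℝ × ℝ := (1 / 16 * sin p.1 * cos p.1, 1 / 16 * sin p.2 * cos p.2)

/-- the first step -/
noncomputable def f1 (p : ℝ × ℝ) : ℝ × ℝ := p + g1 p
/-- the second step -/
noncomputable def f2 (p : ℝ × ℝ) : ℝ × ℝ := p + g2 p
/-- the third step -/
noncomputable def f3 (p : ℝ × ℝ) : ℝ × ℝ := p + g3 p

/-- the map of the plane -/
noncomputable def F (p : ℝ × ℝ) : ℝ × ℝ := f3 (f2 (f1 p))

/-- translation vectors -/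
noncomputable def tr (m n : ℤ) : ℝ × ℝ := (m * (2 * π), n * (2 * π))

lemma g1_contDiff : ContDiff ℝ ω g1 := by unfold g1; fun_prop
lemma g2_contDiff : ContDiff ℝ ω g2 := by unfold g2; fun_prop
lemma g3_contDiff : ContDiff ℝ ω g3 := by unfold g3; fun_prop

lemma g1_tr (p : ℝ × ℝ) (m n : ℤ) : g1 (p + tr m n) = g1 p := by
  simp [g1, tr, Real.sin_add_int_mul_two_pi, Real.cos_add_int_mul_two_pi]
lemma g2_tr (p : ℝ × ℝ) (m n : ℤ) : g2 (p + tr m n) = g2 p := by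
  simp [g2, tr, Real.sin_add_int_mul_two_pi, Real.cos_add_int_mul_two_pi]
lemma g3_tr (p : ℝ × ℝ) (m n : ℤ) : g3 (p + tr m n) = g3 p := by
  simp [g3, tr, Real.sin_add_int_mul_two_pi, Real.cos_add_int_mul_two_pi]

lemma f1_tr (p : ℝ × ℝ) (m n : ℤ) : f1 (p + tr m n) = f1 p + tr m n := by
  unfold f1; rw [g1_tr]; abel
lemma f2_tr (p : ℝ × ℝ) (m n : ℤ) : f2 (p + tr m n) = f2 p + tr m n := by
  unfold f2; rw [g2_tr]; abel
lemma f3_tr (p : ℝ × ℝ) (m n : ℤ) : f3 (p + tr m n) = f3 p + tr m n := by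
  unfold f3; rw [g3_tr]; abel

lemma F_tr (p : ℝ × ℝ) (m n : ℤ) : F (p + tr m n) = F p + tr m n := by
  unfold F; rw [f1_tr, f2_tr, f3_tr]

lemma lip_sin (a b : ℝ) : |sin a - sin b| ≤ |a - b| := by
  have := Real.lipschitzWith_sin.dist_le_mul a b
  simpa [Real.dist_eq] using this

lemma lip_cos (a b : ℝ) : |cos a - cos b| ≤ |a - b| := by
  have := Real.lipschitzWith_cos.dist_le_mul a b
  simpa [Real.dist_eq] using this

lemma lip_prod (a b c d M : ℝ) (h1 : |a - b| ≤ M) (h2 : |c - d| ≤ M) :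
    |sin a * cos c - sin b * cos d| ≤ 2 * M := by
  have e : sin a * cos c - sin b * cos d = (sin a - sin b) * cos c + sin b * (cos c - cos d) := by
    ring
  rw [e]
  have h3 := lip_sin a b
  have h4 := lip_cos c d
  have hM : 0 ≤ M := (abs_nonneg _).trans h1
  calc |(sin a - sin b) * cos c + sin b * (cos c - cos d)|
      ≤ |(sin a - sin b) * cos c| + |sin b * (cos c - cos d)| := abs_add_le _ _
    _ = |sin a - sin b| * |cos c| + |sin b| * |cos c - cos d| := by rw [abs_mul, abs_mul]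
    _ ≤ M * 1 + 1 * M := by
        gcongr
        · exact h3.trans h1
        · exact abs_cos_le_one c
        · exact abs_sin_le_one b
        · exact h4.trans h2
    _ = 2 * M := by ring

lemma g1_lip : LipschitzWith (1 / 4) g1 := by
  refine LipschitzWith.of_dist_le_mul fun p q => ?_
  have hd : |p.2 - q.2| ≤ dist p q := by
    rw [← Real.dist_eq, Prod.dist_eq]; exact le_max_right _ _
  have hd' : |p.1 - q.1| ≤ dist p q := by
    rw [← Real.dist_eq, Prod.dist_eq]; exact le_max_left _ _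
  have h1 := lip_prod p.2 q.2 p.1 q.1 _ hd hd'
  rw [Prod.dist_eq]
  simp only [g1, dist_self]
  rw [max_eq_left dist_nonneg, Real.dist_eq]
  have e : -(1 / 8) * sin p.2 * cos p.1 - -(1 / 8) * sin q.2 * cos q.1 =
    -(1 / 8) * (sin p.2 * cos p.1 - sin q.2 * cos q.1) := by ring
  rw [e, abs_mul, abs_neg, abs_of_pos (by norm_num : (0 : ℝ) < 1 / 8)]
  have e2 : (((1 / 4 : ℝ≥0) : ℝ≥0) : ℝ) = 1 / 4 := by norm_num
  rw [e2]
  linarith

lemma g2_lip : LipschitzWith (1 / 4) g2 := by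
  refine LipschitzWith.of_dist_le_mul fun p q => ?_
  have hd : |p.2 - q.2| ≤ dist p q := by
    rw [← Real.dist_eq, Prod.dist_eq]; exact le_max_right _ _
  have hd' : |p.1 - q.1| ≤ dist p q := by
    rw [← Real.dist_eq, Prod.dist_eq]; exact le_max_left _ _
  have h1 := lip_prod p.1 q.1 p.2 q.2 _ hd' hd
  rw [Prod.dist_eq]
  simp only [g2, dist_self]
  rw [max_eq_right dist_nonneg, Real.dist_eq]
  have e : (1 / 8) * sin p.1 * cos p.2 - (1 / 8) * sin q.1 * cos q.2 =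
    (1 / 8) * (sin p.1 * cos p.2 - sin q.1 * cos q.2) := by ring
  rw [e, abs_mul, abs_of_pos (by norm_num : (0 : ℝ) < 1 / 8)]
  have e2 : (((1 / 4 : ℝ≥0) : ℝ≥0) : ℝ) = 1 / 4 := by norm_num
  rw [e2]
  linarith

lemma g3_lip : LipschitzWith (1 / 4) g3 := by
  refine LipschitzWith.of_dist_le_mul fun p q => ?_
  have hd : |p.2 - q.2| ≤ dist p q := by
    rw [← Real.dist_eq, Prod.dist_eq]; exact le_max_right _ _
  have hd' : |p.1 - q.1| ≤ dist p q := by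
    rw [← Real.dist_eq, Prod.dist_eq]; exact le_max_left _ _
  have h1 := lip_prod p.1 q.1 p.1 q.1 _ hd' hd'
  have h2 := lip_prod p.2 q.2 p.2 q.2 _ hd hd
  have h0 : 0 ≤ dist p q := dist_nonneg
  rw [Prod.dist_eq]
  simp only [g3]
  have e2 : (((1 / 4 : ℝ≥0) : ℝ≥0) : ℝ) = 1 / 4 := by norm_num
  rw [e2]
  refine max_le ?_ ?_
  · rw [Real.dist_eq]
    have e : (1 / 16) * sin p.1 * cos p.1 - (1 / 16) * sin q.1 * cos q.1 =
      (1 / 16) * (sin p.1 * cos p.1 - sin q.1 * cos q.1) := by ring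
    rw [e, abs_mul, abs_of_pos (by norm_num : (0 : ℝ) < 1 / 16)]
    linarith
  · rw [Real.dist_eq]
    have e : (1 / 16) * sin p.2 * cos p.2 - (1 / 16) * sin q.2 * cos q.2 =
      (1 / 16) * (sin p.2 * cos p.2 - sin q.2 * cos q.2) := by ring
    rw [e, abs_mul, abs_of_pos (by norm_num : (0 : ℝ) < 1 / 16)]
    linarith

lemma F_contDiff : ContDiff ℝ ω F := by
  have h1 : ContDiff ℝ ω f1 := contDiff_id.add g1_contDiff
  have h2 : ContDiff ℝ ω f2 := contDiff_id.add g2_contDiff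
  have h3 : ContDiff ℝ ω f3 := contDiff_id.add g3_contDiff
  exact h3.comp (h2.comp h1)

/-- the map of the plane has a real-analytic inverse which commutes with the translations -/
theorem exists_inverse : ∃ G : ℝ × ℝ → ℝ × ℝ, ContDiff ℝ ω G ∧ (∀ x, G (F x) = x) ∧
    (∀ y, F (G y) = y) := by
  have hc : (1 / 4 : ℝ≥0) < 1 := by
    rw [← NNReal.coe_lt_coe]; norm_num
  obtain ⟨G1, s1, l1, r1⟩ := smooth_inverse g1 ω (by simp) g1_contDiff (1 / 4) hc g1_lip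
  obtain ⟨G2, s2, l2, r2⟩ := smooth_inverse g2 ω (by simp) g2_contDiff (1 / 4) hc g2_lip
  obtain ⟨G3, s3, l3, r3⟩ := smooth_inverse g3 ω (by simp) g3_contDiff (1 / 4) hc g3_lip
  refine ⟨fun p => G1 (G2 (G3 p)), s1.comp (s2.comp s3), fun x => ?_, fun y => ?_⟩
  · show G1 (G2 (G3 (f3 (f2 (f1 x))))) = x
    have a3 : ∀ y, G3 (f3 y) = y := l3
    have a2 : ∀ y, G2 (f2 y) = y := l2
    have a1 : ∀ y, G1 (f1 y) = y := l1
    rw [a3, a2, a1]
  · show f3 (f2 (f1 (G1 (G2 (G3 y))))) = y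
    have a3 : ∀ y, f3 (G3 y) = y := r3
    have a2 : ∀ y, f2 (G2 y) = y := r2
    have a1 : ∀ y, f1 (G1 y) = y := r1
    rw [a1, a2, a3]

/-! ### The Lyapunov function -/

/-- the Lyapunov function -/
noncomputable def Wf (p : ℝ × ℝ) : ℝ := |cos p.1| * |cos p.2|

lemma f1_eq (p : ℝ × ℝ) : f1 p = (p.1 + (-(1 / 8) * sin p.2) * cos p.1, p.2) := by
  unfold f1 g1; ext <;> simp
lemma f2_eq (p : ℝ × ℝ) : f2 p = (p.1, p.2 + (1 / 8 * sin p.1) * cos p.2) := by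
  unfold f2 g2; ext <;> simp
lemma f3_eq (p : ℝ × ℝ) : f3 p = (p.1 + (1 / 16 * sin p.1) * cos p.1,
    p.2 + (1 / 16 * sin p.2) * cos p.2) := by
  unfold f3 g3; ext <;> simp

theorem lyap (u v : ℝ) : ∃ u₁ v₁ : ℝ, u₁ = u + (-(1 / 8) * sin v) * cos u ∧
    v₁ = v + (1 / 8 * sin u₁) * cos v ∧
    Wf (F (u, v)) ≤ Wf (u, v) * exp (-((sin u₁ ^ 2 + sin v₁ ^ 2) / 32)) := by
  obtain ⟨u₁, hu₁⟩ : ∃ u₁, u₁ = u + (-(1 / 8) * sin v) * cos u := ⟨_, rfl⟩
  obtain ⟨v₁, hv₁⟩ : ∃ v₁, v₁ = v + (1 / 8 * sin u₁) * cos v := ⟨_, rfl⟩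
  obtain ⟨u₂, hu₂⟩ : ∃ u₂, u₂ = u₁ + (1 / 16 * sin u₁) * cos u₁ := ⟨_, rfl⟩
  obtain ⟨v₂, hv₂⟩ : ∃ v₂, v₂ = v₁ + (1 / 16 * sin v₁) * cos v₁ := ⟨_, rfl⟩
  refine ⟨u₁, v₁, hu₁, hv₁, ?_⟩
  have hF : F (u, v) = (u₂, v₂) := by
    unfold F
    rw [f1_eq, f2_eq, f3_eq, hu₂, hv₂]
    simp only [← hu₁, ← hv₁]
  rw [hF]
  have hk : ∀ c x : ℝ, |c| ≤ 1 / 8 → |c * sin x| ≤ 1 / 8 := by
    intro c x hc
    rw [abs_mul]
    calc |c| * |sin x| ≤ 1 / 8 * 1 := by gcongr; exact abs_sin_le_one x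
      _ = 1 / 8 := by norm_num
  have hk1 : ∀ c x : ℝ, |c| ≤ 1 / 8 → |c * sin x| ≤ |c| * |sin x| := by
    intro c x hc; rw [abs_mul]
  have h8 : |(-(1 / 8) : ℝ)| ≤ 1 / 8 := by rw [abs_neg, abs_of_pos] <;> norm_num
  have h8' : |((1 / 8) : ℝ)| ≤ 1 / 8 := by rw [abs_of_pos]; norm_num
  have h16 : |((1 / 16) : ℝ)| ≤ 1 / 8 := by rw [abs_of_pos] <;> norm_num
  obtain ⟨t1, p1, q1, e1⟩ := step_cos u (-(1 / 8) * sin v) (hk _ _ h8)
  obtain ⟨t2, p2, q2, e2⟩ := step_cos v (1 / 8 * sin u₁) (hk _ _ h8')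
  obtain ⟨t3, p3, q3, e3⟩ := step_cos u₁ (1 / 16 * sin u₁) (hk _ _ h16)
  obtain ⟨t4, p4, q4, e4⟩ := step_cos v₁ (1 / 16 * sin v₁) (hk _ _ h16)
  rw [← hu₁] at e1
  rw [← hv₁] at e2
  rw [← hu₂] at e3
  rw [← hv₂] at e4
  unfold Wf
  simp only
  rw [e3, e4, e1, e2]
  simp only [abs_mul, abs_of_pos p1, abs_of_pos p2, abs_of_pos p3, abs_of_pos p4]
  have hprod : t1 * t2 * (t3 * t4) ≤ exp (-((sin u₁ ^ 2 + sin v₁ ^ 2) / 32)) := by
    calc t1 * t2 * (t3 * t4) ≤ (exp (-(-(1 / 8) * sin v * sin u)) * exp (-(1 / 8 * sin u₁ * sin v))) *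
          (exp (-(1 / 16 * sin u₁ * sin u₁)) * exp (-(1 / 16 * sin v₁ * sin v₁))) := by
          gcongr
      _ = exp (1 / 8 * sin v * (sin u - sin u₁) - 1 / 16 * (sin u₁ ^ 2 + sin v₁ ^ 2)) := by
          rw [← Real.exp_add, ← Real.exp_add, ← Real.exp_add]
          congr 1
          ring
      _ ≤ exp (-((sin u₁ ^ 2 + sin v₁ ^ 2) / 32)) := by
          apply Real.exp_le_exp.2
          have a1 : |sin u - sin u₁| ≤ 1 / 8 * |sin v| := by
            refine (lip_sin u u₁).trans ?_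
            rw [hu₁]
            have : u - (u + -(1 / 8) * sin v * cos u) = 1 / 8 * (sin v * cos u) := by ring
            rw [this, abs_mul, abs_mul, abs_of_pos (by norm_num : (0 : ℝ) < 1 / 8)]
            have := abs_cos_le_one u
            have := abs_nonneg (sin v)
            nlinarith
          have a2 : |sin v - sin v₁| ≤ 1 / 8 * |sin u₁| := by
            refine (lip_sin v v₁).trans ?_
            rw [hv₁]
            have : v - (v + (1 / 8) * sin u₁ * cos v) = -(1 / 8 * (sin u₁ * cos v)) := by ring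
            rw [this, abs_neg, abs_mul, abs_mul, abs_of_pos (by norm_num : (0 : ℝ) < 1 / 8)]
            have := abs_cos_le_one v
            have := abs_nonneg (sin u₁)
            nlinarith
          have a3 : sin v * (sin u - sin u₁) ≤ 1 / 8 * sin v ^ 2 := by
            calc sin v * (sin u - sin u₁) ≤ |sin v * (sin u - sin u₁)| := le_abs_self _
              _ = |sin v| * |sin u - sin u₁| := abs_mul _ _
              _ ≤ |sin v| * (1 / 8 * |sin v|) := by gcongr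
              _ = 1 / 8 * |sin v| ^ 2 := by ring
              _ = 1 / 8 * sin v ^ 2 := by rw [sq_abs]
          have a4 : (sin v - sin v₁) ^ 2 ≤ 1 / 64 * sin u₁ ^ 2 := by
            rw [← sq_abs (sin v - sin v₁), ← sq_abs (sin u₁)]
            have := abs_nonneg (sin v - sin v₁)
            nlinarith [abs_nonneg (sin u₁)]
          have a5 : sin v ^ 2 ≤ 2 * sin v₁ ^ 2 + 2 * (sin v - sin v₁) ^ 2 := by
            nlinarith [sq_nonneg (sin v - sin v₁ - sin v₁)]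
          nlinarith [sq_nonneg (sin u₁), sq_nonneg (sin v₁)]
  calc |cos u| * t1 * t3 * (|cos v| * t2 * t4) = |cos u| * |cos v| * (t1 * t2 * (t3 * t4)) := by ring
    _ ≤ |cos u| * |cos v| * exp (-((sin u₁ ^ 2 + sin v₁ ^ 2) / 32)) := by gcongr

theorem lyap_le (p : ℝ × ℝ) : Wf (F p) ≤ Wf p := by
  obtain ⟨u₁, v₁, -, -, h⟩ := lyap p.1 p.2
  refine h.trans ?_
  have h1 : exp (-((sin u₁ ^ 2 + sin v₁ ^ 2) / 32)) ≤ 1 := by
    rw [Real.exp_le_one_iff]
    have := sq_nonneg (sin u₁)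
    have := sq_nonneg (sin v₁)
    linarith
  have h2 : 0 ≤ Wf p := by unfold Wf; positivity
  calc Wf (p.1, p.2) * exp (-((sin u₁ ^ 2 + sin v₁ ^ 2) / 32)) ≤ Wf p * 1 := by
        apply mul_le_mul_of_nonneg_left h1 h2
    _ = Wf p := mul_one _

theorem lyap_eq (p : ℝ × ℝ) (hp : Wf (F p) = Wf p) :
    cos p.1 = 0 ∨ cos p.2 = 0 ∨ (sin p.1 = 0 ∧ sin p.2 = 0) := by
  obtain ⟨u₁, v₁, hu, hv, h⟩ := lyap p.1 p.2
  have h' : Wf p ≤ Wf p * exp (-((sin u₁ ^ 2 + sin v₁ ^ 2) / 32)) := by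
    rw [← hp]; rw [← hp] at h; exact hp ▸ h
  by_cases h0 : Wf p = 0
  · unfold Wf at h0
    rcases mul_eq_zero.1 h0 with h1 | h1
    · left; exact abs_eq_zero.1 h1
    · right; left; exact abs_eq_zero.1 h1
  · right; right
    have h2 : 0 < Wf p := lt_of_le_of_ne (by unfold Wf; positivity) (Ne.symm h0)
    have h3 : 1 ≤ exp (-((sin u₁ ^ 2 + sin v₁ ^ 2) / 32)) := by
      by_contra hlt
      push Not at hlt
      have := mul_lt_mul_of_pos_left hlt h2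
      linarith
    have h4 := Real.one_le_exp_iff.1 h3
    have h5 : sin u₁ = 0 := by nlinarith [sq_nonneg (sin u₁), sq_nonneg (sin v₁)]
    have h6 : sin v₁ = 0 := by nlinarith [sq_nonneg (sin u₁), sq_nonneg (sin v₁)]
    rw [h5] at hv
    have h7 : v₁ = p.2 := by rw [hv]; ring
    rw [h7] at h6
    rw [h6] at hu
    have h8 : u₁ = p.1 := by rw [hu]; ring
    rw [h8] at h5
    exact ⟨h5, h6⟩

/-! ### The edges -/

lemma oneD' (v : ℝ) : sin ((v - 1 / 8 * cos v) +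
      (1 / 16 * sin (v - 1 / 8 * cos v)) * cos (v - 1 / 8 * cos v)) ≤ sin v - cos v ^ 2 / 100 := by
  have h := oneD (-v)
  have e1 : -v + 1 / 8 * cos (-v) = -(v - 1 / 8 * cos v) := by rw [Real.cos_neg]; ring
  rw [e1, Real.sin_neg, Real.cos_neg, Real.cos_neg, Real.sin_neg] at h
  have e2 : -(v - 1 / 8 * cos v) + 1 / 16 * -sin (v - 1 / 8 * cos v) * cos (v - 1 / 8 * cos v) =
    -((v - 1 / 8 * cos v) + (1 / 16 * sin (v - 1 / 8 * cos v)) * cos (v - 1 / 8 * cos v)) := by ring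
  rw [e2, Real.sin_neg] at h
  linarith

lemma F_left (p : ℝ × ℝ) (h : cos p.1 = 0) : F p = (p.1,
    (p.2 + 1 / 8 * sin p.1 * cos p.2) + (1 / 16 * sin (p.2 + 1 / 8 * sin p.1 * cos p.2)) *
      cos (p.2 + 1 / 8 * sin p.1 * cos p.2)) := by
  unfold F
  rw [f1_eq, f2_eq, f3_eq]
  simp only [h, mul_zero, add_zero]

lemma F_right (p : ℝ × ℝ) (h : cos p.2 = 0) : F p =
    ((p.1 - 1 / 8 * sin p.2 * cos p.1) + (1 / 16 * sin (p.1 - 1 / 8 * sin p.2 * cos p.1)) *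
      cos (p.1 - 1 / 8 * sin p.2 * cos p.1), p.2) := by
  unfold F
  rw [f1_eq, f2_eq, f3_eq]
  have e : p.1 + -(1 / 8) * sin p.2 * cos p.1 = p.1 - 1 / 8 * sin p.2 * cos p.1 := by ring
  simp only [h, mul_zero, add_zero, e]

lemma F_corner (p : ℝ × ℝ) (h : cos p.1 = 0) (h' : cos p.2 = 0) : F p = p := by
  rw [F_left p h]
  ext
  · rfl
  · simp [h']

lemma F_center (p : ℝ × ℝ) (h : sin p.1 = 0) (h' : sin p.2 = 0) : F p = p := by
  unfold F
  rw [f1_eq, f2_eq, f3_eq]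
  ext <;> simp [h, h']

end Pool.Agent.TH194.BE
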