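import Pool.Agent.TH194.BE.Deriv

set_option autoImplicit false

/-! # The diffeomorphism of the torus -/

open MeasureTheory Set Filter Topology
open scoped ENNReal NNReal ContDiff

namespace Pool.Agent.TH194.BE

open Real

lemma mk_rep (x : T2) : mk (rep x) = x := by
  unfold mk rep
  ext
  · exact Quotient.out_eq x.1
  · exact Quotient.out_eq x.2

lemma mk_surj : Function.Surjective mk := fun x => ⟨rep x, mk_rep x⟩

lemma mk_quot : IsOpenQuotientMap mk := by
  have h : IsOpenQuotientMap (fun x : ℝ => (x : AddCircle (2 * π))) :=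
    QuotientAddGroup.isOpenQuotientMap_mk
  exact h.prodMap h

lemma mk_tr (p : ℝ × ℝ) (m n : ℤ) : mk (p + tr m n) = mk p := by
  unfold mk tr
  ext
  · show (((p.1 + m * (2 * π) : ℝ)) : AddCircle (2 * π)) = (p.1 : AddCircle (2 * π))
    rw [← zsmul_eq_mul]
    simp
  · show (((p.2 + n * (2 * π) : ℝ)) : AddCircle (2 * π)) = (p.2 : AddCircle (2 * π))
    rw [← zsmul_eq_mul]
    simp

lemma coe_eq_aux {a b : ℝ} (h : (a : AddCircle (2 * π)) = (b : AddCircle (2 * π))) :
    ∃ m : ℤ, b = a + m * (2 * π) := by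
  have h1 : ((b - a : ℝ) : AddCircle (2 * π)) = 0 := by
    rw [AddCircle.coe_sub, h, sub_self]
  obtain ⟨m, hm⟩ := (AddCircle.coe_eq_zero_iff _).1 h1
  refine ⟨m, ?_⟩
  rw [zsmul_eq_mul] at hm
  linarith

lemma mk_eq {p q : ℝ × ℝ} (h : mk p = mk q) : ∃ m n : ℤ, q = p + tr m n := by
  obtain ⟨m, hm⟩ := coe_eq_aux (congrArg Prod.fst h)
  obtain ⟨n, hn⟩ := coe_eq_aux (congrArg Prod.snd h)
  refine ⟨m, n, ?_⟩
  unfold tr
  ext
  · exact hm
  · exact hn

/-- the map of the torus induced by `H` -/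
noncomputable def ind (H : ℝ × ℝ → ℝ × ℝ) (x : T2) : T2 := mk (H (rep x))

lemma ind_mk (H : ℝ × ℝ → ℝ × ℝ) (hH : ∀ p m n, H (p + tr m n) = H p + tr m n) (p : ℝ × ℝ) :
    ind H (mk p) = mk (H p) := by
  unfold ind
  obtain ⟨m, n, h⟩ := mk_eq (p := p) (q := rep (mk p)) (mk_rep (mk p)).symm
  rw [h, hH, mk_tr]

lemma ind_cont (H : ℝ × ℝ → ℝ × ℝ) (hH : ∀ p m n, H (p + tr m n) = H p + tr m n)
    (hc : Continuous H) : Continuous (ind H) := by
  rw [mk_quot.isQuotientMap.continuous_iff]
  have e : ind H ∘ mk = mk ∘ H := by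
    funext p; exact ind_mk H hH p
  rw [e]
  exact mk_quot.continuous.comp hc

/-- periodic functions of the plane descend to the torus -/
lemma desc_mk (φ : ℝ × ℝ → ℝ) (hφ : ∀ p m n, φ (p + tr m n) = φ p) (p : ℝ × ℝ) :
    φ (rep (mk p)) = φ p := by
  obtain ⟨m, n, h⟩ := mk_eq (p := p) (q := rep (mk p)) (mk_rep (mk p)).symm
  rw [h, hφ]

lemma desc_cont (φ : ℝ × ℝ → ℝ) (hφ : ∀ p m n, φ (p + tr m n) = φ p) (hc : Continuous φ) :
    Continuous (fun x : T2 => φ (rep x)) := by
  rw [mk_quot.isQuotientMap.continuous_iff]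
  have e : (fun x : T2 => φ (rep x)) ∘ mk = φ := by
    funext p; exact desc_mk φ hφ p
  rw [e]
  exact hc

lemma equivariant_inverse (H K : ℝ × ℝ → ℝ × ℝ) (hH : ∀ p m n, H (p + tr m n) = H p + tr m n)
    (h1 : ∀ p, K (H p) = p) (h2 : ∀ p, H (K p) = p) :
    ∀ p m n, K (p + tr m n) = K p + tr m n := by
  intro p m n
  have : p + tr m n = H (K p + tr m n) := by rw [hH, h2]
  rw [this, h1]

/-- the homeomorphism of the torus -/
noncomputable def homeo (H K : ℝ × ℝ → ℝ × ℝ) (hH : ∀ p m n, H (p + tr m n) = H p + tr m n)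
    (hK : ∀ p m n, K (p + tr m n) = K p + tr m n)
    (h1 : ∀ p, K (H p) = p) (h2 : ∀ p, H (K p) = p) (c1 : Continuous H) (c2 : Continuous K) :
    T2 ≃ₜ T2 where
  toFun := ind H
  invFun := ind K
  left_inv := by
    intro x
    obtain ⟨p, rfl⟩ := mk_surj x
    rw [ind_mk H hH, ind_mk K hK, h1]
  right_inv := by
    intro x
    obtain ⟨p, rfl⟩ := mk_surj x
    rw [ind_mk K hK, ind_mk H hH, h2]
  continuous_toFun := ind_cont H hH c1
  continuous_invFun := ind_cont K hK c2

/-! ### Invariant measures -/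

lemma sin1_tr (p : ℝ × ℝ) (m n : ℤ) : sin (p + tr m n).1 = sin p.1 := by
  simp [tr, Real.sin_add_int_mul_two_pi]
lemma sin2_tr (p : ℝ × ℝ) (m n : ℤ) : sin (p + tr m n).2 = sin p.2 := by
  simp [tr, Real.sin_add_int_mul_two_pi]
lemma cos1_tr (p : ℝ × ℝ) (m n : ℤ) : cos (p + tr m n).1 = cos p.1 := by
  simp [tr, Real.cos_add_int_mul_two_pi]
lemma cos2_tr (p : ℝ × ℝ) (m n : ℤ) : cos (p + tr m n).2 = cos p.2 := by
  simp [tr, Real.cos_add_int_mul_two_pi]
lemma Wf_tr (p : ℝ × ℝ) (m n : ℤ) : Wf (p + tr m n) = Wf p := by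
  unfold Wf; rw [cos1_tr, cos2_tr]

/-- the basic lemma: a bounded measurable function which never decreases along orbits is
invariant almost everywhere -/
lemma ae_eq_of_le (ρ : Measure T2) [IsFiniteMeasure ρ] (f : T2 ≃ₜ T2) (hf : MeasurePreserving f ρ ρ)
    (φ : T2 → ℝ) (hm : Measurable φ) (C : ℝ) (hC : ∀ x, |φ x| ≤ C) (hle : ∀ x, φ x ≤ φ (f x)) :
    ∀ᵐ x ∂ρ, φ (f x) = φ x := by
  have i1 : Integrable φ ρ := Integrable.of_bound hm.aestronglyMeasurable C
    (Eventually.of_forall fun x => by rw [Real.norm_eq_abs]; exact hC x)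
  have i2 : Integrable (fun x => φ (f x)) ρ := Integrable.of_bound
    (hm.comp f.measurable).aestronglyMeasurable C
    (Eventually.of_forall fun x => by rw [Real.norm_eq_abs]; exact hC _)
  have e1 : ∫ x, φ (f x) ∂ρ = ∫ x, φ x ∂ρ := hf.integral_comp f.measurableEmbedding φ
  have e2 : ∫ x, (φ (f x) - φ x) ∂ρ = 0 := by
    rw [integral_sub i2 i1, e1, sub_self]
  have e3 := (integral_eq_zero_iff_of_nonneg (fun x => sub_nonneg.2 (hle x)) (i2.sub i1)).1 e2
  filter_upwards [e3] with x hx
  have : φ (f x) - φ x = 0 := hx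
  linarith

/-- a version with an invariant closed set -/
lemma ae_on (ρ : Measure T2) [IsFiniteMeasure ρ] (f : T2 ≃ₜ T2) (hf : MeasurePreserving f ρ ρ)
    (ψ χ : ℝ × ℝ → ℝ) (hψ : ∀ p m n, ψ (p + tr m n) = ψ p) (hχ : ∀ p m n, χ (p + tr m n) = χ p)
    (cψ : Continuous ψ) (cχ : Continuous χ) (hF : ∀ p, f (mk p) = mk (F p))
    (hb : ∀ p, 0 ≤ ψ p ∧ ψ p ≤ 3) (hinv : ∀ p, χ p = 1 → χ (F p) = 1)
    (hle : ∀ p, χ p = 1 → ψ p ≤ ψ (F p)) :
    ∀ᵐ x ∂ρ, χ (rep x) = 1 → ψ (F (rep x)) = ψ (rep x) := by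
  classical
  let Z : Set T2 := {x | χ (rep x) = 1}
  have hZ : MeasurableSet Z := (measurableSet_singleton (1 : ℝ)).preimage (desc_cont χ hχ cχ).measurable
  let φ : T2 → ℝ := Z.indicator (fun x => ψ (rep x))
  have hm : Measurable φ := (desc_cont ψ hψ cψ).measurable.indicator hZ
  have hrep : ∀ x, ∃ m n : ℤ, rep (f x) = F (rep x) + tr m n := by
    intro x
    have h1 : mk (F (rep x)) = mk (rep (f x)) := by
      rw [mk_rep, ← hF, mk_rep]
    exact mk_eq h1
  have hψ' : ∀ x, ψ (rep (f x)) = ψ (F (rep x)) := by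
    intro x; obtain ⟨m, n, h⟩ := hrep x; rw [h, hψ]
  have hχ' : ∀ x, χ (rep (f x)) = χ (F (rep x)) := by
    intro x; obtain ⟨m, n, h⟩ := hrep x; rw [h, hχ]
  have key := ae_eq_of_le ρ f hf φ hm 3 (fun x => by
    by_cases hx : x ∈ Z
    · simp only [φ, Set.indicator_of_mem hx]
      rw [abs_of_nonneg (hb _).1]; exact (hb _).2
    · simp only [φ, Set.indicator_of_notMem hx]; simp) (fun x => by
    by_cases hx : x ∈ Z
    · have hx' : f x ∈ Z := by
        show χ (rep (f x)) = 1
        rw [hχ']; exact hinv _ hx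
      simp only [φ, Set.indicator_of_mem hx, Set.indicator_of_mem hx']
      rw [hψ']; exact hle _ hx
    · simp only [φ, Set.indicator_of_notMem hx]
      by_cases hx' : f x ∈ Z
      · rw [Set.indicator_of_mem hx']; exact (hb _).1
      · rw [Set.indicator_of_notMem hx'])
  filter_upwards [key] with x hx hx1
  have m1 : x ∈ Z := hx1
  have m2 : f x ∈ Z := by
    show χ (rep (f x)) = 1
    rw [hχ']; exact hinv _ hx1
  simp only [φ, Set.indicator_of_mem m1, Set.indicator_of_mem m2] at hx
  rw [← hψ']; exact hx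

lemma sin_one_cos {a : ℝ} (h : sin a = 1) : cos a = 0 := by
  have := Real.sin_sq_add_cos_sq a
  rw [h] at this
  have h2 : cos a ^ 2 = 0 := by linarith
  exact pow_eq_zero_iff (two_ne_zero) |>.1 h2

lemma sin_neg_one_cos {a : ℝ} (h : -sin a = 1) : cos a = 0 := by
  have := Real.sin_sq_add_cos_sq a
  have h1 : sin a = -1 := by linarith
  rw [h1] at this
  have h2 : cos a ^ 2 = 0 := by linarith
  exact pow_eq_zero_iff (two_ne_zero) |>.1 h2

/-- almost every point, for every invariant measure, is one of the eight fixed points -/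
theorem ae_fixed (ρ : Measure T2) [IsFiniteMeasure ρ] (f : T2 ≃ₜ T2) (hf : MeasurePreserving f ρ ρ)
    (hF : ∀ p, f (mk p) = mk (F p)) :
    ∀ᵐ x ∂ρ, (cos (rep x).1 = 0 ∧ cos (rep x).2 = 0) ∨ (sin (rep x).1 = 0 ∧ sin (rep x).2 = 0) := by
  have bd : ∀ a : ℝ, -1 ≤ sin a ∧ sin a ≤ 1 := fun a => ⟨Real.neg_one_le_sin a, Real.sin_le_one a⟩
  -- the Lyapunov function
  have hW : ∀ᵐ x ∂ρ, (1 : ℝ) = 1 → (fun p => 1 - Wf p) (F (rep x)) = (fun p => 1 - Wf p) (rep x) :=
    ae_on ρ f hf (fun p => 1 - Wf p) (fun _ => 1) (fun p m n => by simp only [Wf_tr])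
      (fun _ _ _ => rfl) (by unfold Wf; fun_prop) continuous_const hF
      (fun p => by
        have h1 := abs_cos_le_one p.1
        have h2 := abs_cos_le_one p.2
        have h3 := abs_nonneg (cos p.1)
        have h4 := abs_nonneg (cos p.2)
        unfold Wf
        constructor <;> nlinarith) (fun _ _ => rfl) (fun p _ => by
        have := lyap_le p
        linarith)
  have h1 : ∀ᵐ x ∂ρ, sin (rep x).1 = 1 →
      (fun p : ℝ × ℝ => 2 + sin p.2) (F (rep x)) = (fun p : ℝ × ℝ => 2 + sin p.2) (rep x) :=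
    ae_on ρ f hf (fun p => 2 + sin p.2) (fun p => sin p.1) (fun p m n => by simp only [sin2_tr])
      (fun p m n => sin1_tr p m n) (by fun_prop) (by fun_prop) hF
      (fun p => by have := bd p.2; constructor <;> linarith)
      (fun p hp => by rw [F_left p (sin_one_cos hp)]; exact hp)
      (fun p hp => by
        rw [F_left p (sin_one_cos hp)]
        simp only
        have hp' : sin p.1 = 1 := hp
        have := oneD p.2
        rw [hp', mul_one]
        nlinarith [sq_nonneg (cos p.2)])
  have h2 : ∀ᵐ x ∂ρ, -sin (rep x).1 = 1 →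
      (fun p : ℝ × ℝ => 2 - sin p.2) (F (rep x)) = (fun p : ℝ × ℝ => 2 - sin p.2) (rep x) :=
    ae_on ρ f hf (fun p => 2 - sin p.2) (fun p => -sin p.1) (fun p m n => by simp only [sin2_tr])
      (fun p m n => by simp only [sin1_tr]) (by fun_prop) (by fun_prop) hF
      (fun p => by have := bd p.2; constructor <;> linarith)
      (fun p hp => by rw [F_left p (sin_neg_one_cos hp)]; exact hp)
      (fun p hp => by
        rw [F_left p (sin_neg_one_cos hp)]
        simp only
        have hp' : sin p.1 = -1 := by have : -sin p.1 = 1 := hp; linarith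
        have := oneD' p.2
        have e : p.2 + 1 / 8 * sin p.1 * cos p.2 = p.2 - 1 / 8 * cos p.2 := by rw [hp']; ring
        rw [e]
        nlinarith [sq_nonneg (cos p.2)])
  have h3 : ∀ᵐ x ∂ρ, sin (rep x).2 = 1 →
      (fun p : ℝ × ℝ => 2 - sin p.1) (F (rep x)) = (fun p : ℝ × ℝ => 2 - sin p.1) (rep x) :=
    ae_on ρ f hf (fun p => 2 - sin p.1) (fun p => sin p.2) (fun p m n => by simp only [sin1_tr])
      (fun p m n => by simp only [sin2_tr]) (by fun_prop) (by fun_prop) hF
      (fun p => by have := bd p.1; constructor <;> linarith)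
      (fun p hp => by rw [F_right p (sin_one_cos hp)]; exact hp)
      (fun p hp => by
        rw [F_right p (sin_one_cos hp)]
        simp only
        have hp' : sin p.2 = 1 := hp
        have := oneD' p.1
        have e : p.1 - 1 / 8 * sin p.2 * cos p.1 = p.1 - 1 / 8 * cos p.1 := by rw [hp']; ring
        rw [e]
        nlinarith [sq_nonneg (cos p.1)])
  have h4 : ∀ᵐ x ∂ρ, -sin (rep x).2 = 1 →
      (fun p : ℝ × ℝ => 2 + sin p.1) (F (rep x)) = (fun p : ℝ × ℝ => 2 + sin p.1) (rep x) :=
    ae_on ρ f hf (fun p => 2 + sin p.1) (fun p => -sin p.2) (fun p m n => by simp only [sin1_tr])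
      (fun p m n => by simp only [sin2_tr]) (by fun_prop) (by fun_prop) hF
      (fun p => by have := bd p.1; constructor <;> linarith)
      (fun p hp => by rw [F_right p (sin_neg_one_cos hp)]; exact hp)
      (fun p hp => by
        rw [F_right p (sin_neg_one_cos hp)]
        simp only
        have hp' : sin p.2 = -1 := by have : -sin p.2 = 1 := hp; linarith
        have := oneD p.1
        have e : p.1 - 1 / 8 * sin p.2 * cos p.1 = p.1 + 1 / 8 * cos p.1 := by rw [hp']; ring
        rw [e]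
        nlinarith [sq_nonneg (cos p.1)])
  filter_upwards [hW, h1, h2, h3, h4] with x hW h1 h2 h3 h4
  have hW' : Wf (F (rep x)) = Wf (rep x) := by
    have := hW rfl
    linarith
  have sq : ∀ a : ℝ, cos a = 0 → sin a = 1 ∨ -sin a = 1 := by
    intro a ha
    have := Real.sin_sq_add_cos_sq a
    rw [ha] at this
    have h5 : (sin a - 1) * (sin a + 1) = 0 := by ring_nf; linarith
    rcases mul_eq_zero.1 h5 with h6 | h6
    · left; linarith
    · right; linarith
  have z : ∀ a : ℝ, a ^ 2 / 100 ≤ 0 → a = 0 := by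
    intro a ha
    have : a ^ 2 = 0 := le_antisymm (by linarith) (sq_nonneg a)
    exact pow_eq_zero_iff (two_ne_zero) |>.1 this
  rcases lyap_eq _ hW' with hc | hc | hc
  · left
    refine ⟨hc, ?_⟩
    rcases sq _ hc with hs | hs
    · have h5 := h1 hs
      rw [F_left _ hc] at h5
      simp only [hs, mul_one] at h5
      have := oneD (rep x).2
      apply z; linarith
    · have h5 := h2 hs
      rw [F_left _ hc] at h5
      have hs' : sin (rep x).1 = -1 := by linarith
      have e : (rep x).2 + 1 / 8 * sin (rep x).1 * cos (rep x).2 = (rep x).2 - 1 / 8 * cos (rep x).2 := by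
        rw [hs']; ring
      simp only [e] at h5
      have := oneD' (rep x).2
      apply z; linarith
  · left
    refine ⟨?_, hc⟩
    rcases sq _ hc with hs | hs
    · have h5 := h3 hs
      rw [F_right _ hc] at h5
      simp only [hs, mul_one] at h5
      have := oneD' (rep x).1
      apply z; linarith
    · have h5 := h4 hs
      rw [F_right _ hc] at h5
      have hs' : sin (rep x).2 = -1 := by linarith
      have e : (rep x).1 - 1 / 8 * sin (rep x).2 * cos (rep x).1 = (rep x).1 + 1 / 8 * cos (rep x).1 := by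
        rw [hs']; ring
      simp only [e] at h5
      have := oneD (rep x).1
      apply z; linarith
  · right; exact hc

/-! ### Entropy of a map which is the identity almost everywhere -/

theorem entropy_zero (ρ : Measure T2) [IsProbabilityMeasure ρ] (f : T2 → T2)
    (hf : ∀ᵐ x ∂ρ, f x = x) : entropy ρ f = 0 := by
  unfold entropy
  simp only [ENNReal.iSup_eq_zero]
  intro k P hP
  have hit : ∀ᵐ x ∂ρ, ∀ n, f^[n] x = x := by
    filter_upwards [hf] with x hx n
    exact Function.iterate_fixed hx n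
  obtain ⟨C, hC⟩ : ∃ C, C = shannon ρ P := ⟨_, rfl⟩
  have hsh : ∀ n : ℕ, 0 < n → shannon ρ (word P f n) = C := by
    intro n hn
    rw [hC]
    unfold shannon
    symm
    have hconst : ∀ j : Fin k, ρ (word P f n ⁻¹' {fun _ => j}) = ρ (P ⁻¹' {j}) := by
      intro j
      apply measure_congr
      filter_upwards [hit] with x hx
      apply propext
      show word P f n x = (fun _ => j) ↔ P x = j
      constructor
      · intro h
        have := congrFun h ⟨0, hn⟩
        exact this
      · intro h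
        funext i
        show P (f^[i] x) = j
        rw [hx]; exact h
    apply Finset.sum_of_injOn (fun j : Fin k => (fun _ : Fin n => j))
    · intro a _ b _ hab
      exact congrFun hab ⟨0, hn⟩
    · intro a _; simp
    · intro w _ hw
      have : ρ (word P f n ⁻¹' {w}) = 0 := by
        rw [measure_eq_zero_iff_ae_notMem]
        filter_upwards [hit] with x hx hxw
        apply hw
        refine ⟨P x, by simp, ?_⟩
        have hxw' : word P f n x = w := hxw
        rw [← hxw']
        funext i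
        show P x = P (f^[i] x)
        rw [hx]
      rw [this]; simp
    · intro j _
      rw [hconst]
  have hlim : Tendsto (fun n : ℕ => ENNReal.ofReal (shannon ρ (word P f n) / n)) atTop (𝓝 0) := by
    have h1 : Tendsto (fun n : ℕ => ENNReal.ofReal (C / n)) atTop (𝓝 0) := by
      have := ENNReal.tendsto_ofReal (tendsto_const_div_atTop_nhds_zero_nat C)
      simpa using this
    refine h1.congr' ?_
    filter_upwards [eventually_gt_atTop 0] with n hn
    rw [hsh n hn]
  exact hlim.limsup_eq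

end Pool.Agent.TH194.BE
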